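import Pool.Agent.Helper87.UW.FarA

/-!
# UW: block Z8 (`far_mean`), the weight, the means
-/

set_option autoImplicit false
open MeasureTheory Set Filter Topology
open Pool.Agent.Helper57.Zeta Pool.Agent.Helper57.LH Pool.Agent.Helper57.ED Pool.Agent.Helper54.LG
open Pool.Agent.Helper69.UG (pt NX XX NR NM WW near far)
open Pool.Agent.Helper69.UW
open Pool.Agent.Helper56.UG (aj aj_nonneg Jc Kc Kc_spec IK zs_re56 two_za_le tsum_bound56 sum_aj plog_pt plog WW_pos)

namespace Pool.Agent.Helper87.UW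

variable {δ : ℝ}

/-! ### the weight -/

lemma RR_cont (δ T c m v : ℝ) : Continuous (RR δ T c m v) := by
  unfold RR
  refine continuous_finsetSum _ fun n hn => ?_
  have hn1 : 1 ≤ n := (Finset.mem_Icc.1 hn).1
  refine continuous_const.mul (Continuous.const_cpow (by fun_prop) (Or.inl (by exact_mod_cast (by omega : n ≠ 0))))

lemma wt_cont {T : ℝ} (hT : 0 < T) (c m v τ : ℝ) : Continuous (wt δ T c m v τ) := by
  unfold wt
  have hpi := Real.pi_pos
  have hW := WW_pos hT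
  refine Continuous.mul ?_ ((RR_cont δ T c m v).norm.pow 2)
  unfold PW
  exact Continuous.div continuous_const (by fun_prop) fun t => by positivity

lemma wt_nonneg {T : ℝ} (hT : 0 < T) (c m v τ t : ℝ) : 0 ≤ wt δ T c m v τ t := by
  unfold wt
  exact mul_nonneg (PW_pos (WW_pos hT) _).le (by positivity)

lemma norm_RR_le {T c m v B : ℝ} (hB : ∀ n, |rr δ T c m v n| ≤ B) (t : ℝ) : ‖RR δ T c m v t‖ ≤ NR T * B := by
  unfold RR
  have h0 : 0 ≤ B := (abs_nonneg _).trans (hB 0)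
  refine (norm_sum_le _ _).trans ?_
  have h1 : ∀ n ∈ Finset.Icc 1 (NR T), ‖(rr δ T c m v n : ℂ) * (n : ℂ) ^ (-((1 / 2 : ℂ) + (t : ℂ) * Complex.I))‖ ≤ B := by
    intro n hn
    have hn1 : 1 ≤ n := (Finset.mem_Icc.1 hn).1
    rw [norm_mul, Complex.norm_real, Real.norm_eq_abs, Complex.norm_natCast_cpow_of_pos (by omega)]
    have h2 : (-((1 / 2 : ℂ) + (t : ℂ) * Complex.I)).re = -(1 / 2) := by simp
    rw [h2]
    have h3 : (n : ℝ) ^ (-(1 / 2) : ℝ) ≤ 1 := by
      apply Real.rpow_le_one_of_one_le_of_nonpos (by exact_mod_cast hn1) (by norm_num)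
    calc |rr δ T c m v n| * (n : ℝ) ^ (-(1 / 2) : ℝ) ≤ B * 1 := mul_le_mul (hB n) h3 (by positivity) h0
      _ = B := mul_one B
  refine (Finset.sum_le_sum h1).trans ?_
  rw [Finset.sum_const, nsmul_eq_mul, Nat.card_Icc, Nat.add_sub_cancel]

/-- the mean of the logarithm under the weight -/
lemma wt_log : ∃ I1 : ℝ, 0 < I1 ∧ ∀ T c m v τ u B : ℝ, 1 ≤ T → (∀ n, |rr δ T c m v n| ≤ B) → |τ| ≤ 2 * T → |u| ≤ T / 4 →
    Integrable (fun t => wt δ T c m v τ t * Real.log (4 + T + |t + u|)) ∧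
    ∫ t, wt δ T c m v τ t * Real.log (4 + T + |t + u|) ≤ I1 * (NR T * B) ^ 2 * Real.sqrt T := by
  obtain ⟨I0, hI0, h⟩ := plog
  refine ⟨6 * I0, by positivity, fun T c m v τ u B hT hB hτ hu => ?_⟩
  have hT0 : 0 < T := by linarith
  have hW := WW_pos hT0
  have hWT : WW T ≤ T := by
    unfold WW
    calc T ^ (4095 / 4096 : ℝ) ≤ T ^ (1 : ℝ) := Real.rpow_le_rpow_of_exponent_le hT (by norm_num)
      _ = T := Real.rpow_one T
  obtain ⟨hi, hb⟩ := h (WW T) τ hW
  have hpt : ∀ t : ℝ, Real.log (4 + T + |t + u|) ≤ 6 * Real.sqrt T * Real.sqrt (1 + |t - τ| / WW T) := by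
    intro t
    have a1 : |t + u| ≤ |t - τ| + |τ| + |u| := by
      calc |t + u| = |(t - τ) + τ + u| := by ring_nf
        _ ≤ |(t - τ) + τ| + |u| := abs_add_le _ _
        _ ≤ |t - τ| + |τ| + |u| := by linarith [abs_add_le (t - τ) τ]
    have a2 : |t - τ| ≤ T * (|t - τ| / WW T) := by
      rw [mul_div_assoc', le_div_iff₀ hW, mul_comm]
      exact mul_le_mul_of_nonneg_right hWT (abs_nonneg _)
    have a3 : 4 + T + |t + u| ≤ 9 * T * (1 + |t - τ| / WW T) := by
      have a4 : 0 ≤ T * (|t - τ| / WW T) := by positivity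
      nlinarith
    have a5 : 0 < 4 + T + |t + u| := by positivity
    have a6 : Real.log (4 + T + |t + u|) ≤ 2 * Real.sqrt (4 + T + |t + u|) := by
      have a7 : Real.log (Real.sqrt (4 + T + |t + u|)) ≤ Real.sqrt (4 + T + |t + u|) - 1 :=
        Real.log_le_sub_one_of_pos (Real.sqrt_pos.2 a5)
      rw [Real.log_sqrt a5.le] at a7
      linarith
    refine a6.trans ?_
    have a8 : Real.sqrt (4 + T + |t + u|) ≤ 3 * Real.sqrt T * Real.sqrt (1 + |t - τ| / WW T) := by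
      calc Real.sqrt (4 + T + |t + u|) ≤ Real.sqrt (9 * T * (1 + |t - τ| / WW T)) := Real.sqrt_le_sqrt a3
        _ = Real.sqrt (9 * T) * Real.sqrt (1 + |t - τ| / WW T) := Real.sqrt_mul (by positivity) _
        _ = 3 * Real.sqrt T * Real.sqrt (1 + |t - τ| / WW T) := by
            rw [Real.sqrt_mul (by norm_num) T, show (9 : ℝ) = 3 ^ 2 by norm_num, Real.sqrt_sq (by norm_num)]
    linarith
  have hlog0 : ∀ t : ℝ, 0 ≤ Real.log (4 + T + |t + u|) := fun t => Real.log_nonneg (by have := abs_nonneg (t + u); linarith)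
  have hB0 : 0 ≤ B := (abs_nonneg _).trans (hB 0)
  have hle : ∀ t : ℝ, wt δ T c m v τ t * Real.log (4 + T + |t + u|) ≤
      (6 * (NR T * B) ^ 2 * Real.sqrt T) * (PW (WW T) (t - τ) * Real.sqrt (1 + |t - τ| / WW T)) := by
    intro t
    have b1 : ‖RR δ T c m v t‖ ^ 2 ≤ (NR T * B) ^ 2 := pow_le_pow_left₀ (norm_nonneg _) (norm_RR_le hB t) 2
    have b2 := (PW_pos hW (t - τ)).le
    unfold wt
    calc PW (WW T) (t - τ) * ‖RR δ T c m v t‖ ^ 2 * Real.log (4 + T + |t + u|) ≤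
          PW (WW T) (t - τ) * (NR T * B) ^ 2 * (6 * Real.sqrt T * Real.sqrt (1 + |t - τ| / WW T)) :=
          mul_le_mul (mul_le_mul_of_nonneg_left b1 b2) (hpt t) (hlog0 t) (by positivity)
      _ = _ := by ring
  have hcont : Continuous fun t : ℝ => wt δ T c m v τ t * Real.log (4 + T + |t + u|) := by
    refine (wt_cont hT0 c m v τ).mul (Continuous.log (by fun_prop) fun t => ?_)
    have := abs_nonneg (t + u)
    positivity
  have hI : Integrable (fun t => wt δ T c m v τ t * Real.log (4 + T + |t + u|)) :=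
    (hi.const_mul (6 * (NR T * B) ^ 2 * Real.sqrt T)).mono' hcont.aestronglyMeasurable (ae_of_all _ fun t => by
      rw [Real.norm_eq_abs, abs_of_nonneg (mul_nonneg (wt_nonneg hT0 c m v τ t) (hlog0 t))]
      exact hle t)
  refine ⟨hI, (integral_mono hI (hi.const_mul _) hle).trans ?_⟩
  rw [integral_const_mul]
  calc 6 * (NR T * B) ^ 2 * Real.sqrt T * ∫ t, PW (WW T) (t - τ) * Real.sqrt (1 + |t - τ| / WW T) ≤
        6 * (NR T * B) ^ 2 * Real.sqrt T * I0 := mul_le_mul_of_nonneg_left hb (by positivity)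
    _ = _ := by ring

/-- the mean of one layer -/
lemma mean_LY {C3 C4 T c m v τ u M : ℝ} {Q : Finset ℕ} (hC3 : 0 ≤ C3) (hC4 : 0 ≤ C4) (hT : 3 ≤ T) (hu : |u| ≤ T / 4)
    (hV : 0 ≤ VV δ T c m v)
    (h4 : ∀ u' y : ℝ, |u'| ≤ T → 2 ≤ y → ∀ K : ℕ, 1 ≤ K → 4 * 2 ^ K * y ≤ Real.log T / 4 →
      Integrable (fun t => wt δ T c m v τ t * GY T Q y K (t + u')) ∧
      ∫ t, wt δ T c m v τ t * GY T Q y K (t + u') ≤ C4 * Real.exp (C4 * √m - y / 64) * VV δ T c m v)
    (h5 : ∀ u' y : ℝ, |u'| ≤ T → 2 ≤ y → ∀ K : ℕ, 1 ≤ K → 4 * 2 ^ K * y ≤ Real.log T / 4 → Real.log T / 4 < 8 * 2 ^ K * y →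
      Integrable (fun t => wt δ T c m v τ t * (Real.log (4 + |t + u'|) * cen T Q y (K - 1) (t + u'))) ∧
      ∫ t, wt δ T c m v τ t * (Real.log (4 + |t + u'|) * cen T Q y (K - 1) (t + u')) ≤ T ^ (-(1 / 1000) : ℝ) * VV δ T c m v)
    {y : ℝ} (hy2 : 2 ≤ y) (hyT : y ≤ Real.log T / 64) :
    Integrable (fun t => wt δ T c m v τ t * LY C3 T M Q y (t + u)) ∧
    ∫ t, wt δ T c m v τ t * LY C3 T M Q y (t + u) ≤
      Real.exp (4 * y / M) * ((2 + 4 * M ^ 2) * ((C4 * Real.exp (C4 * √m - y / 64) + C3 * T ^ (-(1 / 1000) : ℝ)) * VV δ T c m v)) := by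
  have hy : 0 < y := by linarith
  have hL : 0 < Real.log T := Real.log_pos (by linarith)
  obtain ⟨k1, k2, k3⟩ := Kc_spec hy hyT
  set L := Real.log T with hLd
  set K := Kc T y with hK
  have hshift : ∀ j ∈ Finset.Icc (-(Jc T y)) (Jc T y), |u + 2 * (j : ℝ) * y / L| ≤ T := by
    intro j hj
    obtain ⟨a, b⟩ := Finset.mem_Icc.1 hj
    have h1 : |(j : ℝ)| ≤ T * L / (4 * y) + 2 := by
      have h2 : |(j : ℝ)| ≤ ((Jc T y : ℤ) : ℝ) := by
        rw [abs_le]
        exact ⟨by exact_mod_cast a, by exact_mod_cast b⟩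
      refine h2.trans ?_
      unfold Jc
      push_cast
      have := Int.ceil_lt_add_one (T * Real.log T / (4 * y))
      linarith
    have h3 : |2 * (j : ℝ) * y / L| = |(j : ℝ)| * (2 * y / L) := by
      rw [show 2 * (j : ℝ) * y / L = (j : ℝ) * (2 * y / L) by ring, abs_mul, abs_of_pos (by positivity : 0 < 2 * y / L)]
    have h4' : |(j : ℝ)| * (2 * y / L) ≤ (T * L / (4 * y) + 2) * (2 * y / L) := mul_le_mul_of_nonneg_right h1 (by positivity)
    have h5' : (T * L / (4 * y) + 2) * (2 * y / L) = T / 2 + 4 * (y / L) := by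
      field_simp
      ring
    have h6 : y / L ≤ 1 / 64 := by
      rw [div_le_iff₀ hL]
      linarith
    calc |u + 2 * (j : ℝ) * y / L| ≤ |u| + |2 * (j : ℝ) * y / L| := abs_add_le _ _
      _ ≤ T := by rw [h3]; linarith
  have hterm : ∀ j ∈ Finset.Icc (-(Jc T y)) (Jc T y),
      Integrable (fun t => wt δ T c m v τ t * HC C3 T Q y K (t + u + 2 * j * y / L)) ∧
      ∫ t, wt δ T c m v τ t * HC C3 T Q y K (t + u + 2 * j * y / L) ≤
        (C4 * Real.exp (C4 * √m - y / 64) + C3 * T ^ (-(1 / 1000) : ℝ)) * VV δ T c m v := by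
    intro j hj
    obtain ⟨a1, a2⟩ := h4 _ y (hshift j hj) hy2 K k1 k2
    obtain ⟨b1, b2⟩ := h5 _ y (hshift j hj) hy2 K k1 k2 k3
    have he : (fun t => wt δ T c m v τ t * HC C3 T Q y K (t + u + 2 * j * y / L)) = fun t =>
        wt δ T c m v τ t * GY T Q y K (t + (u + 2 * j * y / L)) +
          C3 * (wt δ T c m v τ t * (Real.log (4 + |t + (u + 2 * j * y / L)|) * cen T Q y (K - 1) (t + (u + 2 * j * y / L)))) := by
      funext t
      unfold HC
      rw [add_assoc t u]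
      ring
    rw [he]
    refine ⟨a1.add (b1.const_mul C3), ?_⟩
    rw [integral_add a1 (b1.const_mul C3), integral_const_mul]
    have := mul_le_mul_of_nonneg_left b2 hC3
    linarith
  have he : (fun t => wt δ T c m v τ t * LY C3 T M Q y (t + u)) = fun t =>
      ∑ j ∈ Finset.Icc (-(Jc T y)) (Jc T y), (Real.exp (4 * y / M) * aj M j) * (wt δ T c m v τ t * HC C3 T Q y K (t + u + 2 * j * y / L)) := by
    funext t
    unfold LY
    rw [Finset.mul_sum, Finset.mul_sum]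
    refine Finset.sum_congr rfl fun j _ => ?_
    ring
  rw [he]
  refine ⟨integrable_finsetSum _ fun j hj => (hterm j hj).1.const_mul _, ?_⟩
  rw [integral_finsetSum _ fun j hj => (hterm j hj).1.const_mul _]
  set Bd : ℝ := (C4 * Real.exp (C4 * √m - y / 64) + C3 * T ^ (-(1 / 1000) : ℝ)) * VV δ T c m v with hBd
  have hBd0 : 0 ≤ Bd := by positivity
  calc ∑ j ∈ Finset.Icc (-(Jc T y)) (Jc T y), ∫ t, (Real.exp (4 * y / M) * aj M j) * (wt δ T c m v τ t * HC C3 T Q y K (t + u + 2 * j * y / L)) ≤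
        ∑ j ∈ Finset.Icc (-(Jc T y)) (Jc T y), (Real.exp (4 * y / M) * aj M j) * Bd := by
        refine Finset.sum_le_sum fun j hj => ?_
        rw [integral_const_mul]
        exact mul_le_mul_of_nonneg_left (hterm j hj).2 (mul_nonneg (Real.exp_pos _).le (aj_nonneg _ _))
    _ = Real.exp (4 * y / M) * ((∑ j ∈ Finset.Icc (-(Jc T y)) (Jc T y), aj M j) * Bd) := by
        rw [Finset.sum_mul, Finset.mul_sum]
        refine Finset.sum_congr rfl fun j _ => ?_
        ring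
    _ ≤ Real.exp (4 * y / M) * ((2 + 4 * M ^ 2) * Bd) := by
        apply mul_le_mul_of_nonneg_left _ (Real.exp_pos _).le
        exact mul_le_mul_of_nonneg_right (sum_aj M _) hBd0

end Pool.Agent.Helper87.UW
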